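import Pool.Agent.Run7.h593.QW.K1w

/-!
# The kernel of the torus: completeness of the plane waves
-/

set_option linter.unusedSectionVars false
set_option linter.unusedVariables false

open MeasureTheory Matrix Filter Topology
open scoped ComplexConjugate

namespace Run7.h593.QW

open Run7.h4.YM Run7.h630.WL Run7.h630.MQ Run7.h630.QC Run7.h630.ML Run7.h630.QF Run7.h630.QW
open Run7.h4.QF

noncomputable section

variable {N m l : ℕ}

lemma comp_ew [NeZero m] [NeZero (2 * m)] (X Y : ZMod (2 * m)) :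
    ∑ a ∈ Finset.Ico (-(m : ℤ)) m, conj (ew m a Y) * ew m a X =
      if X = Y then (2 * m : ℂ) else 0 := by
  have hm : (m : ℂ) ≠ 0 := by exact_mod_cast NeZero.ne m
  have h2m : 0 < 2 * m := NeZero.pos (2 * m)
  have hX : X.val < 2 * m := ZMod.val_lt X
  have hY : Y.val < 2 * m := ZMod.val_lt Y
  have hd : |(X.val : ℤ) - Y.val| < ((2 * m : ℕ) : ℤ) := by
    rw [abs_lt]
    constructor <;> omega
  have h := sum_root h2m (-(m : ℤ)) ((X.val : ℤ) - Y.val) hd
  have e0 : -(m : ℤ) + ((2 * m : ℕ) : ℤ) = m := by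
    push_cast
    ring
  rw [e0] at h
  have e1 : ∀ a : ℤ, conj (ew m a Y) * ew m a X = Complex.exp (2 * Real.pi * Complex.I *
      (a * (((X.val : ℤ) - Y.val : ℤ) : ℂ) / ((2 * m : ℕ) : ℂ))) := by
    intro a
    unfold ew
    rw [← Complex.exp_conj, ← Complex.exp_add]
    congr 1
    simp only [map_mul, Complex.conj_I, Complex.conj_ofReal]
    push_cast
    field_simp
    ring
  rw [Finset.sum_congr rfl fun a _ => e1 a, h]
  have e2 : ((X.val : ℤ) - Y.val = 0) ↔ X = Y := by
    constructor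
    · intro h0
      apply ZMod.val_injective (2 * m)
      omega
    · rintro rfl
      simp
  simp only [e2]
  push_cast
  rfl

lemma comp_wave [NeZero N] [NeZero l] (k : ℕ) (α : Col N) (X Y : ZMod l × ZMod l) :
    ∑ c ∈ Wi l, conj (wave N k l (α, c) Y) * wave N k l (α, c) X =
      if X = Y then (l : ℂ) ^ 2 else 0 := by
  have hl : (l : ℂ) ≠ 0 := by exact_mod_cast NeZero.ne l
  have hN : (N : ℂ) ≠ 0 := by exact_mod_cast NeZero.ne N
  have hl0 : 0 < l := NeZero.pos l
  have b : ∀ z w : ZMod l, |((z - 1).val : ℤ) - (w - 1).val| < (l : ℤ) := by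
    intro z w
    have h1 : (z - 1).val < l := ZMod.val_lt _
    have h2 : (w - 1).val < l := ZMod.val_lt _
    rw [abs_lt]
    constructor <;> omega
  set d1 : ℤ := ((X.1 - 1).val : ℤ) - (Y.1 - 1).val with hd1
  set d2 : ℤ := ((X.2 - 1).val : ℤ) - (Y.2 - 1).val with hd2
  have e1 : ∀ c : ℤ × ℤ, conj (wave N k l (α, c) Y) * wave N k l (α, c) X =
      Complex.exp (2 * Real.pi * Complex.I * ((-(k * ((α.2 : ℕ) : ℂ) / N) * d1 +
        k * ((α.1 : ℕ) : ℂ) / N * d2) / l)) *
      (Complex.exp (2 * Real.pi * Complex.I * (c.1 * d1 / l)) *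
        Complex.exp (2 * Real.pi * Complex.I * (c.2 * d2 / l))) := by
    intro c
    unfold wave
    rw [← Complex.exp_conj, ← Complex.exp_add, ← Complex.exp_add, ← Complex.exp_add]
    congr 1
    simp only [map_mul, Complex.conj_I, Complex.conj_ofReal]
    rw [hd1, hd2]
    generalize (X.1 - 1).val = p1
    generalize (X.2 - 1).val = p2
    generalize (Y.1 - 1).val = q1
    generalize (Y.2 - 1).val = q2
    have m2 : mom N k ((α, c) : Ix N) 2 =
      2 * Real.pi * ((c.1 : ℝ) - k * ((α.2 : ℕ) : ℝ) / N) := rfl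
    have m3 : mom N k ((α, c) : Ix N) 3 =
      2 * Real.pi * ((c.2 : ℝ) + k * ((α.1 : ℕ) : ℝ) / N) := rfl
    rw [m2, m3]
    push_cast
    field_simp
    ring
  rw [Finset.sum_congr rfl fun c _ => e1 c, ← Finset.mul_sum]
  unfold Wi
  rw [Finset.sum_product]
  simp only [← Finset.mul_sum, ← Finset.sum_mul]
  rw [sum_root hl0 _ d1 (b _ _), sum_root hl0 _ d2 (b _ _)]
  have e2 : ∀ z w : ZMod l, (((z - 1).val : ℤ) - (w - 1).val = 0) ↔ z = w := by
    intro z w
    constructor
    · intro h0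
      have : (z - 1).val = (w - 1).val := by omega
      have h1 := ZMod.val_injective l this
      exact sub_left_injective h1
    · rintro rfl
      simp
  by_cases hXY : X = Y
  · subst hXY
    have z1 : d1 = 0 := by simp [hd1]
    have z2 : d2 = 0 := by simp [hd2]
    rw [z1, z2]
    simp
    ring
  · rw [if_neg hXY]
    by_cases h1 : d1 = 0
    · have h2 : d2 ≠ 0 := by
        intro h2
        exact hXY (Prod.ext ((e2 _ _).1 h1) ((e2 _ _).1 h2))
      rw [if_neg h2]
      simp
    · rw [if_neg h1]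
      simp

/-- completeness -/
lemma comp_H [NeZero N] [NeZero m] [NeZero (2 * m)] [NeZero l] (k : ℕ) (α : Col N)
    (x Y : Site (2 * m) (2 * m) l) :
    ∑ a ∈ Finset.Ico (-(m : ℤ)) m, ∑ c ∈ Wi l,
      conj (ew m a Y.2.1 * wave N k l (α, c) Y.2.2) *
        H N k m l α (Pi.single Y.1 1) a c x =
      if x = Y then (2 * m * l ^ 2 : ℂ) else 0 := by
  have e : ∀ (a : ℤ) (c : ℤ × ℤ), conj (ew m a Y.2.1 * wave N k l (α, c) Y.2.2) *
      H N k m l α (Pi.single Y.1 1) a c x = (Pi.single Y.1 1 : ZMod (2 * m) → ℂ) x.1 *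
        ((conj (ew m a Y.2.1) * ew m a x.2.1) *
          (conj (wave N k l (α, c) Y.2.2) * wave N k l (α, c) x.2.2)) := by
    intro a c
    unfold H
    rw [map_mul]
    ring
  simp only [e, ← Finset.mul_sum, ← Finset.sum_mul]
  rw [comp_ew, comp_wave]
  obtain ⟨x1, x2, x3⟩ := x
  obtain ⟨y1, y2, y3⟩ := Y
  simp only [Prod.mk.injEq]
  by_cases h1 : x1 = y1
  · subst h1
    by_cases h2 : x2 = y2
    · subst h2
      by_cases h3 : x3 = y3
      · subst h3
        simp
      · simp [h3]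
    · simp [h2]
  · simp [h1]

/-- completeness, in the form used by helper885 -/
theorem comp (N k m l : ℕ) [NeZero N] [NeZero m] [NeZero (2 * m)] [NeZero l] (α : Col N)
    (u : ZMod (2 * m)) (p q : ZMod l × ZMod l) :
    ∑ a ∈ Finset.Ico (-(m : ℤ)) m, ∑ c ∈ Wi l,
      Complex.exp (Complex.I * ((Real.pi * a * u.val / m : ℝ) : ℂ)) *
        (wave N k l (α, c) p * conj (wave N k l (α, c) q)) =
      if u = 0 ∧ p = q then ((2 * m * l ^ 2 : ℝ) : ℂ) else 0 := by
  have e : ∀ (a : ℤ) (c : ℤ × ℤ),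
      Complex.exp (Complex.I * ((Real.pi * a * u.val / m : ℝ) : ℂ)) *
        (wave N k l (α, c) p * conj (wave N k l (α, c) q)) =
      (conj (ew m a 0) * ew m a u) * (conj (wave N k l (α, c) q) * wave N k l (α, c) p) := by
    intro a c
    have h0 : ew m a 0 = 1 := by simp [ew]
    rw [h0, map_one, one_mul]
    unfold ew
    ring
  simp only [e, ← Finset.mul_sum, ← Finset.sum_mul]
  rw [comp_ew, comp_wave]
  by_cases h1 : u = 0
  · by_cases h2 : p = q
    · rw [if_pos h1, if_pos h2, if_pos ⟨h1, h2⟩]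
      push_cast
      ring
    · have h3 : ¬ (u = 0 ∧ p = q) := fun h => h2 h.2
      rw [if_neg h2, if_neg h3, mul_zero]
  · have h3 : ¬ (u = 0 ∧ p = q) := fun h => h1 h.1
    rw [if_neg h1, if_neg h3, zero_mul]

end

end Run7.h593.QW
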