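import Pool.Agent.Run7.h630.QW.Iface
import Pool.Agent.Run7.h4.QF.R4b
import Pool.Agent.Run7.h771.QC.Loop
import Pool.Agent.Run7.h270.QC.Q5a

/-!
# The kernel of the torus: plane waves
-/

set_option linter.unusedSectionVars false
set_option linter.unusedVariables false

open MeasureTheory Matrix Filter Topology
open scoped ComplexConjugate

namespace Run7.h593.QW

open Run7.h4.YM Run7.h630.WL Run7.h630.MQ Run7.h630.QC Run7.h630.ML Run7.h630.QF Run7.h630.QW
open Run7.h4.QF

noncomputable section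

variable {N m l : ℕ}

/-- the plane wave in the direction `1` -/
def ew (m : ℕ) (a : ℤ) (v : ZMod (2 * m)) : ℂ :=
  Complex.exp (Complex.I * ((Real.pi * a * v.val / m : ℝ) : ℂ))

/-- the product of a function in the direction `0` and the plane waves -/
def H (N k m l : ℕ) (α : Col N) (u : ZMod (2 * m) → ℂ) (a : ℤ) (c : ℤ × ℤ)
    (x : Site (2 * m) (2 * m) l) : ℂ :=
  u x.1 * ew m a x.2.1 * wave N k l (α, c) x.2.2

lemma ew_int [NeZero m] (a z : ℤ) :
    ew m a (z : ZMod (2 * m)) = Complex.exp (Complex.I * ((Real.pi * a * z / m : ℝ) : ℂ)) := by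
  have hm : (m : ℂ) ≠ 0 := by exact_mod_cast NeZero.ne m
  have : NeZero (2 * m) := ⟨by have := NeZero.ne m; omega⟩
  have h1 : (((z : ZMod (2 * m)).val : ℕ) : ℤ) = z % ((2 * m : ℕ) : ℤ) := ZMod.val_intCast z
  have h2 : (((z : ZMod (2 * m)).val : ℕ) : ℤ) = z - (2 * m) * (z / ((2 * m : ℕ) : ℤ)) := by
    rw [h1, Int.emod_def]
    push_cast
    ring
  have h3 : (((z : ZMod (2 * m)).val : ℕ) : ℂ) = z - (2 * m) * ((z / ((2 * m : ℕ) : ℤ) : ℤ) : ℂ) := by
    exact_mod_cast h2
  unfold ew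
  have e : Complex.I * ((Real.pi * a * (z : ZMod (2 * m)).val / m : ℝ) : ℂ) =
      Complex.I * ((Real.pi * a * z / m : ℝ) : ℂ) +
        ((-(a * (z / ((2 * m : ℕ) : ℤ))) : ℤ) : ℂ) * (2 * Real.pi * Complex.I) := by
    push_cast
    push_cast at h3
    rw [h3]
    field_simp
    ring
  rw [e, Complex.exp_add, Complex.exp_int_mul_two_pi_mul_I, mul_one]

lemma ew_succ [NeZero m] [NeZero (2 * m)] (a : ℤ) (v : ZMod (2 * m)) :
    ew m a (v + 1) = Complex.exp (Complex.I * ((Real.pi * a / m : ℝ) : ℂ)) * ew m a v := by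
  have hm : (m : ℂ) ≠ 0 := by exact_mod_cast NeZero.ne m
  have h2 : v + 1 = ((v.val + 1 : ℤ) : ZMod (2 * m)) := by
    push_cast
    simp
  rw [h2, ew_int]
  unfold ew
  rw [← Complex.exp_add]
  congr 1
  push_cast
  field_simp
  ring

/-- the phases of the shifts -/
def Es (N k m l : ℕ) (α : Col N) (a : ℤ) (c : ℤ × ℤ) : Fin 4 → ℂ :=
  ![1, Complex.exp (Complex.I * ((Real.pi * a / m : ℝ) : ℂ)),
    Complex.exp (Complex.I * ((mom N k (α, c) 2 / l : ℝ) : ℂ)),
    Complex.exp (Complex.I * ((mom N k (α, c) 3 / l : ℝ) : ℂ))]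

lemma norm_Es (k : ℕ) (α : Col N) (a : ℤ) (c : ℤ × ℤ) (i : Fin 4) :
    ‖Es N k m l α a c i‖ = 1 := by
  fin_cases i
  · simp [Es]
  · simp only [Es]
    rw [show ((![1, Complex.exp (Complex.I * ((Real.pi * a / m : ℝ) : ℂ)),
      Complex.exp (Complex.I * ((mom N k (α, c) 2 / l : ℝ) : ℂ)),
      Complex.exp (Complex.I * ((mom N k (α, c) 3 / l : ℝ) : ℂ))] : Fin 4 → ℂ) ⟨1, by omega⟩) =
      Complex.exp (Complex.I * ((Real.pi * a / m : ℝ) : ℂ)) from rfl, mul_comm]
    exact Complex.norm_exp_ofReal_mul_I _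
  · simp only [Es]
    rw [show ((![1, Complex.exp (Complex.I * ((Real.pi * a / m : ℝ) : ℂ)),
      Complex.exp (Complex.I * ((mom N k (α, c) 2 / l : ℝ) : ℂ)),
      Complex.exp (Complex.I * ((mom N k (α, c) 3 / l : ℝ) : ℂ))] : Fin 4 → ℂ) ⟨2, by omega⟩) =
      Complex.exp (Complex.I * ((mom N k (α, c) 2 / l : ℝ) : ℂ)) from rfl, mul_comm]
    exact Complex.norm_exp_ofReal_mul_I _
  · simp only [Es]
    rw [show ((![1, Complex.exp (Complex.I * ((Real.pi * a / m : ℝ) : ℂ)),
      Complex.exp (Complex.I * ((mom N k (α, c) 2 / l : ℝ) : ℂ)),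
      Complex.exp (Complex.I * ((mom N k (α, c) 3 / l : ℝ) : ℂ))] : Fin 4 → ℂ) ⟨3, by omega⟩) =
      Complex.exp (Complex.I * ((mom N k (α, c) 3 / l : ℝ) : ℂ)) from rfl, mul_comm]
    exact Complex.norm_exp_ofReal_mul_I _

/-- the shift in the direction `i` -/
lemma H_shift [NeZero N] [NeZero m] [NeZero (2 * m)] [NeZero l] (k : ℕ) (α : Col N)
    (u : ZMod (2 * m) → ℂ) (a : ℤ) (c : ℤ × ℤ) (x : Site (2 * m) (2 * m) l) (i : Fin 4) :
    rh k α x i * H N k m l α u a c (x + dir i) =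
      Es N k m l α a c i * H N k m l α (if i = 0 then fun v => u (v + 1) else u) a c x := by
  have h := wave_shift k ((α, c) : Ix N) x i
  simp only at h
  have e1 : rh k α x i * H N k m l α u a c (x + dir i) =
      u (x + dir i).1 * ew m a (x + dir i).2.1 *
        (rh k α x i * wave N k l (α, c) (x + dir i).2.2) := by
    unfold H
    ring
  rw [e1, h]
  fin_cases i
  · have hd1 : (x + dir (0 : Fin 4)).1 = x.1 + 1 := by simp [dir]
    have hd2 : (x + dir (0 : Fin 4)).2.1 = x.2.1 := by simp [dir]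
    have he : ek N k l (α, c) (0 : Fin 4) = 1 := by simp [ek, mom]
    simp only [Fin.zero_eta, hd1, hd2, he]
    simp [H, Es]
  · have hd1 : (x + dir (1 : Fin 4)).1 = x.1 := by simp [dir]
    have hd2 : (x + dir (1 : Fin 4)).2.1 = x.2.1 + 1 := by simp [dir]
    have he : ek N k l (α, c) (1 : Fin 4) = 1 := by simp [ek, mom]
    simp only [Fin.mk_one, hd1, hd2, he, ew_succ]
    simp only [H, Es, one_ne_zero, if_false]
    simp only [Matrix.cons_val_one, Matrix.cons_val_zero]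
    ring
  · have hd1 : (x + dir (2 : Fin 4)).1 = x.1 := by simp [dir]
    have hd2 : (x + dir (2 : Fin 4)).2.1 = x.2.1 := by simp [dir]
    simp only [Fin.reduceFinMk, hd1, hd2]
    have he : Es N k m l α a c 2 = ek N k l (α, c) 2 := rfl
    rw [he, if_neg (by decide)]
    unfold H
    ring
  · have hd1 : (x + dir (3 : Fin 4)).1 = x.1 := by simp [dir]
    have hd2 : (x + dir (3 : Fin 4)).2.1 = x.2.1 := by simp [dir]
    simp only [Fin.reduceFinMk, hd1, hd2]
    have he : Es N k m l α a c 3 = ek N k l (α, c) 3 := rfl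
    rw [he, if_neg (by decide)]
    unfold H
    ring

/-- the backward shift -/
lemma H_back [NeZero N] [NeZero m] [NeZero (2 * m)] [NeZero l] (k : ℕ) (α : Col N)
    (u : ZMod (2 * m) → ℂ) (a : ℤ) (c : ℤ × ℤ) (x : Site (2 * m) (2 * m) l) (i : Fin 4) :
    conj (rh k α (x - dir i) i) * H N k m l α u a c (x - dir i) =
      conj (Es N k m l α a c i) * H N k m l α (if i = 0 then fun v => u (v - 1) else u) a c x := by
  have h := H_shift k α (if i = 0 then fun v => u (v - 1) else u) a c (x - dir i) i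
  rw [sub_add_cancel] at h
  have e : (if i = 0 then fun v => (if i = 0 then fun v => u (v - 1) else u) (v + 1)
      else (if i = 0 then fun v => u (v - 1) else u)) = u := by
    by_cases hi : i = 0
    · simp [hi]
    · simp [hi]
  rw [e] at h
  have h1 : conj (Es N k m l α a c i) * Es N k m l α a c i = 1 := by
    rw [mul_comm, Complex.mul_conj, Complex.normSq_eq_norm_sq, norm_Es]
    simp
  have h2 : conj (rh k α (x - dir i) i) * rh k α (x - dir i) i = 1 := by
    rw [mul_comm, Complex.mul_conj, Complex.normSq_eq_norm_sq, norm_rh']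
    simp
  linear_combination (-(conj (rh k α (x - dir i) i) * conj (Es N k m l α a c i))) * h -
    (conj (rh k α (x - dir i) i) * H N k m l α u a c (x - dir i)) * h1 +
    (conj (Es N k m l α a c i) *
      H N k m l α (if i = 0 then fun v => u (v - 1) else u) a c x) * h2

lemma nb_H0 [NeZero N] [NeZero m] [NeZero (2 * m)] [NeZero l] (k : ℕ) (α : Col N)
    (u : ZMod (2 * m) → ℂ) (a : ℤ) (c : ℤ × ℤ) :
    nb k α 0 (H N k m l α u a c) = H N k m l α (fun v => u (v + 1) - u v) a c := by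
  funext x
  have h := H_shift (l := l) k α u a c x 0
  rw [if_pos rfl] at h
  unfold nb
  rw [h]
  simp [H, Es]
  ring

lemma nbs_H0 [NeZero N] [NeZero m] [NeZero (2 * m)] [NeZero l] (k : ℕ) (α : Col N)
    (u : ZMod (2 * m) → ℂ) (a : ℤ) (c : ℤ × ℤ) :
    nbs k α 0 (H N k m l α u a c) = H N k m l α (fun v => u (v - 1) - u v) a c := by
  funext x
  have h := H_back (l := l) k α u a c x 0
  rw [if_pos rfl] at h
  unfold nbs
  rw [h]
  simp [H, Es]
  ring

lemma Es_fac (k : ℕ) (α : Col N) (s : ℝ) (a : ℤ) (c : ℤ × ℤ) {i : Fin 4} (hi : i ≠ 0) :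
    Es N k m l α a c i - 1 = fac N k l m s a (α, c) i := by
  fin_cases i
  · exact absurd rfl hi
  · rfl
  · rfl
  · rfl

lemma Es_fab (k : ℕ) (α : Col N) (s : ℝ) (a : ℤ) (c : ℤ × ℤ) {i : Fin 4} (hi : i ≠ 0) :
    conj (Es N k m l α a c i) - 1 = fab N k l m s a (α, c) i := by
  have key : ∀ r : ℝ, conj (Complex.exp (Complex.I * (r : ℂ))) =
      Complex.exp (-(Complex.I * (r : ℂ))) := by
    intro r
    rw [← Complex.exp_conj]
    simp
  fin_cases i
  · exact absurd rfl hi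
  · exact congrArg (· - 1) (key _)
  · exact congrArg (· - 1) (key _)
  · exact congrArg (· - 1) (key _)

lemma nb_H [NeZero N] [NeZero m] [NeZero (2 * m)] [NeZero l] (k : ℕ) (α : Col N)
    (u : ZMod (2 * m) → ℂ) (a : ℤ) (c : ℤ × ℤ) (s : ℝ) {i : Fin 4} (hi : i ≠ 0) :
    nb k α i (H N k m l α u a c) =
      H N k m l α (fun v => fac N k l m s a (α, c) i * u v) a c := by
  funext x
  have h := H_shift (l := l) k α u a c x i
  rw [if_neg hi] at h
  unfold nb
  rw [h, ← Es_fac k α s a c hi]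
  unfold H
  ring

lemma nbs_H [NeZero N] [NeZero m] [NeZero (2 * m)] [NeZero l] (k : ℕ) (α : Col N)
    (u : ZMod (2 * m) → ℂ) (a : ℤ) (c : ℤ × ℤ) (s : ℝ) {i : Fin 4} (hi : i ≠ 0) :
    nbs k α i (H N k m l α u a c) =
      H N k m l α (fun v => fab N k l m s a (α, c) i * u v) a c := by
  funext x
  have h := H_back (l := l) k α u a c x i
  rw [if_neg hi] at h
  unfold nbs
  rw [h, ← Es_fab k α s a c hi]
  unfold H
  ring

/-- `(exp (-iθ) - 1) (exp (iθ) - 1) = 2 - 2 cos θ` -/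
lemma two_cos (r : ℝ) : (Complex.exp (-(Complex.I * (r : ℂ))) - 1) *
    (Complex.exp (Complex.I * (r : ℂ)) - 1) = ((2 - 2 * Real.cos r : ℝ) : ℂ) := by
  have h1 : Complex.exp (-(Complex.I * (r : ℂ))) * Complex.exp (Complex.I * (r : ℂ)) = 1 := by
    rw [← Complex.exp_add]
    simp
  have h2 : Complex.exp (Complex.I * (r : ℂ)) + Complex.exp (-(Complex.I * (r : ℂ))) =
      2 * Complex.cos r := by
    rw [Complex.cos]
    rw [mul_comm Complex.I]
    rw [neg_mul]
    ring
  push_cast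
  linear_combination h1 - h2

lemma fab_fac (k : ℕ) (α : Col N) (a : ℤ) (c : ℤ × ℤ) (s : ℝ) :
    fab N k l m s a (α, c) 1 * fac N k l m s a (α, c) 1 +
      fab N k l m s a (α, c) 2 * fac N k l m s a (α, c) 2 +
      fab N k l m s a (α, c) 3 * fac N k l m s a (α, c) 3 = ((Al N k l m a (α, c) : ℝ) : ℂ) := by
  have e1 : fab N k l m s a (α, c) 1 * fac N k l m s a (α, c) 1 =
    ((2 - 2 * Real.cos (Real.pi * a / m) : ℝ) : ℂ) := two_cos _
  have e2 : fab N k l m s a (α, c) 2 * fac N k l m s a (α, c) 2 =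
    ((2 - 2 * Real.cos (mom N k (α, c) 2 / l) : ℝ) : ℂ) := two_cos _
  have e3 : fab N k l m s a (α, c) 3 * fac N k l m s a (α, c) 3 =
    ((2 - 2 * Real.cos (mom N k (α, c) 3 / l) : ℝ) : ℂ) := two_cos _
  rw [e1, e2, e3]
  unfold Al xm
  push_cast
  ring

lemma La_H [NeZero N] [NeZero m] [NeZero (2 * m)] [NeZero l] (k : ℕ) (α : Col N)
    (u : ZMod (2 * m) → ℂ) (a : ℤ) (c : ℤ × ℤ) :
    La (2 * m) (2 * m) l k α (H N k m l α u a c) =
      H N k m l α (fun v => (2 + (Al N k l m a (α, c) : ℂ)) * u v - u (v + 1) - u (v - 1)) a c := by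
  funext x
  show ∑ j : Fin 4, nbs k α j (nb k α j (H N k m l α u a c)) x = _
  rw [Fin.sum_univ_four, nb_H0, nbs_H0, nb_H k α u a c 1 (by decide : (1 : Fin 4) ≠ 0),
    nb_H k α u a c 1 (by decide : (2 : Fin 4) ≠ 0), nb_H k α u a c 1 (by decide : (3 : Fin 4) ≠ 0),
    nbs_H k α _ a c 1 (by decide : (1 : Fin 4) ≠ 0),
    nbs_H k α _ a c 1 (by decide : (2 : Fin 4) ≠ 0),
    nbs_H k α _ a c 1 (by decide : (3 : Fin 4) ≠ 0)]
  have h := fab_fac (l := l) (m := m) k α a c 1
  unfold H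
  simp only [sub_add_cancel]
  linear_combination (u x.1 * ew m a x.2.1 * wave N k l (α, c) x.2.2) * h

/-- the sum of a root of unity over a period -/
lemma sum_root {M : ℕ} (hM : 0 < M) (s d : ℤ) (hd : |d| < M) :
    ∑ n ∈ Finset.Ico s (s + M), Complex.exp (2 * Real.pi * Complex.I * (n * d / M)) =
      if d = 0 then (M : ℂ) else 0 := by
  have hMc : (M : ℂ) ≠ 0 := by exact_mod_cast hM.ne'
  rw [Int.Ico_eq_finset_map]
  rw [Finset.sum_map]
  have e1 : (s + (M : ℤ) - s).toNat = M := by omega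
  rw [e1]
  by_cases h0 : d = 0
  · subst h0
    simp
  rw [if_neg h0]
  set ζ : ℂ := Complex.exp (2 * Real.pi * Complex.I * (d / M)) with hζ
  have h1 : ∀ n : ℕ, Complex.exp (2 * Real.pi * Complex.I *
      ((((Nat.castEmbedding.trans (addLeftEmbedding s)) n : ℤ) : ℂ) * d / M)) =
      Complex.exp (2 * Real.pi * Complex.I * (s * d / M)) * ζ ^ n := by
    intro n
    rw [hζ, ← Complex.exp_nat_mul, ← Complex.exp_add]
    congr 1
    simp only [Function.Embedding.trans_apply, Nat.castEmbedding_apply, addLeftEmbedding_apply]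
    push_cast
    ring
  rw [Finset.sum_congr rfl fun n _ => h1 n, ← Finset.mul_sum]
  have hζM : ζ ^ M = 1 := by
    rw [hζ, ← Complex.exp_nat_mul]
    have : (M : ℂ) * (2 * Real.pi * Complex.I * (d / M)) = d * (2 * Real.pi * Complex.I) := by
      field_simp
    rw [this, Complex.exp_int_mul_two_pi_mul_I]
  have hζ1 : ζ ≠ 1 := by
    intro h
    rw [hζ, Complex.exp_eq_one_iff] at h
    obtain ⟨z, hz⟩ := h
    have hpi : (2 * Real.pi * Complex.I : ℂ) ≠ 0 := Complex.two_pi_I_ne_zero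
    have h2 : (d : ℂ) / M = z := by
      apply mul_left_cancel₀ hpi
      rw [hz]
      ring
    rw [div_eq_iff hMc] at h2
    have h3 : d = z * M := by exact_mod_cast h2
    have h4 : z ≠ 0 := by
      rintro rfl
      simp at h3
      exact h0 h3
    have h5 : (M : ℤ) ≤ |d| := by
      rw [h3, abs_mul, Nat.abs_cast]
      have : 1 ≤ |z| := Int.one_le_abs h4
      nlinarith [(Nat.cast_nonneg M : (0 : ℤ) ≤ M)]
    omega
  have h2 : ∑ n ∈ Finset.range M, ζ ^ n = 0 := by
    rw [geom_sum_eq hζ1, hζM, sub_self, zero_div]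
  rw [h2, mul_zero]

end

end Run7.h593.QW
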